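import Pool.Agent.MP_9ab903_nt.XG.SG

set_option autoImplicit false
set_option linter.unusedSectionVars false
set_option linter.style.haveILetI false

open Polynomial NumberField IsDedekindDomain
open scoped Classical

namespace XG

/-! ## [RS11-CL] the Galois closure over `ℚ` -/

/-- An automorphism of the normal closure which fixes all conjugates of `F` is trivial. -/
theorem ncl_ext {F M : Type} [Field F] [NumberField F] [Field M] [NumberField M] [Algebra F M]
    [IsNormalClosure ℚ F M] [IsGalois ℚ M] (σ : M ≃ₐ[ℚ] M)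
    (h : ∀ (g : M ≃ₐ[ℚ] M) (x : F), σ (g (algebraMap F M x)) = g (algebraMap F M x)) : σ = 1 := by
  have h1 : (⨆ x : F, IntermediateField.adjoin ℚ ((minpoly ℚ x).rootSet M)) = ⊤ :=
    IsNormalClosure.adjoin_rootSet
  have h2 : (⊤ : IntermediateField ℚ M) ≤ IntermediateField.fixedField (Subgroup.zpowers σ) := by
    rw [← h1, iSup_le_iff]
    intro x
    rw [IntermediateField.adjoin_le_iff]
    intro y hy
    have h3 : minpoly ℚ (algebraMap F M x) = minpoly ℚ x :=
      minpoly.algebraMap_eq (algebraMap F M).injective x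
    have h4 : minpoly ℚ y = minpoly ℚ (algebraMap F M x) := by
      rw [h3]
      have hint : IsIntegral ℚ x := IsIntegral.of_finite ℚ x
      exact (minpoly.eq_of_irreducible_of_monic (minpoly.irreducible hint)
        ((mem_rootSet.1 hy).2) (minpoly.monic hint)).symm
    obtain ⟨g, hg⟩ := (Normal.minpoly_eq_iff_mem_orbit (F := ℚ) M).1 h4
    have h5 : σ y = y := by
      rw [← hg]
      exact h g x
    rw [SetLike.mem_coe, IntermediateField.mem_fixedField_iff]
    intro τ hτ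
    have h6 : Subgroup.zpowers σ ≤ MulAction.stabilizer (M ≃ₐ[ℚ] M) y := by
      rw [Subgroup.zpowers_le]
      exact h5
    exact h6 hτ
  ext x
  have h3 : x ∈ IntermediateField.fixedField (Subgroup.zpowers σ) := h2 trivial
  rw [IntermediateField.mem_fixedField_iff] at h3
  exact h3 σ (Subgroup.mem_zpowers σ)

theorem rat_val (v : HeightOneSpectrum (𝓞 ℚ)) (p : ℕ) (hp : p.Prime) (h : (p : 𝓞 ℚ) ∈ v.asIdeal) :
    v.valuation ℚ (p : ℚ) = WithZero.exp (-1) := by
  have h1 : v.asIdeal = Ideal.span {(p : 𝓞 ℚ)} := by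
    have hpr : Prime (p : 𝓞 ℚ) := by
      have h2 : Prime (Rat.ringOfIntegersEquiv (p : 𝓞 ℚ)) := by
        rw [map_natCast]
        exact Nat.prime_iff_prime_int.1 hp
      exact (MulEquiv.prime_iff Rat.ringOfIntegersEquiv.toMulEquiv).1 h2
    have h3 : (Ideal.span {(p : 𝓞 ℚ)}).IsPrime := (Ideal.span_singleton_prime hpr.ne_zero).2 hpr
    have h4 : (Ideal.span {(p : 𝓞 ℚ)}).IsMaximal :=
      h3.isMaximal (by rw [Ne, Ideal.span_singleton_eq_bot]; exact hpr.ne_zero)
    exact (h4.eq_of_le v.isPrime.ne_top ((Ideal.span_singleton_le_iff_mem _).2 h)).symm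
  have h2 := v.intValuation_singleton (r := (p : 𝓞 ℚ)) (by
    intro h0
    apply v.ne_bot
    rw [h1, h0, Ideal.span_singleton_eq_bot]) h1
  rw [← v.valuation_of_algebraMap (K := ℚ)] at h2
  change v.valuation ℚ (algebraMap (𝓞 ℚ) ℚ (p : 𝓞 ℚ)) = _ at h2
  rwa [map_natCast] at h2

/-- If the ramification index is `1` then `p ∉ P²`. -/
theorem not_sq_of_ram {M : Type} [Field M] [NumberField M] (v : HeightOneSpectrum (𝓞 ℚ))
    (P : HeightOneSpectrum (𝓞 M)) [hPv : P.asIdeal.LiesOver v.asIdeal] (p : ℕ) (hp : p.Prime)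
    (h : (p : 𝓞 M) ∈ P.asIdeal) (he : P.asIdeal.ramificationIdx (𝓞 ℚ) = 1) :
    (p : 𝓞 M) ∉ P.asIdeal ^ 2 := by
  have h1 := HeightOneSpectrum.valuation_liesOver (K := ℚ) M v P (p : ℚ)
  rw [Ideal.ramificationIdx'_eq_ramificationIdx v.asIdeal P.asIdeal v.ne_bot, he, pow_one,
    map_natCast (algebraMap ℚ M) p] at h1
  have h2 : (p : 𝓞 ℚ) ∈ v.asIdeal := by
    rw [hPv.over, Ideal.under_def, Ideal.mem_comap, map_natCast]
    exact h
  rw [rat_val v p hp h2] at h1
  rw [← P.intValuation_le_pow_iff_mem, ← P.valuation_of_algebraMap (K := M)]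
  change ¬ P.valuation M (algebraMap (𝓞 M) M (p : 𝓞 M)) ≤ _
  rw [map_natCast, ← h1, WithZero.exp_le_exp]
  norm_num

section

variable {F M : Type} [Field F] [NumberField F] [Field M] [NumberField M] [Algebra F M]
  [IsGalois ℚ M]

/-- Inertia groups above unramified places of a subfield. -/
theorem inertia_fixes (P : HeightOneSpectrum (𝓞 M)) (P₀ : HeightOneSpectrum (𝓞 F))
    [P.asIdeal.LiesOver P₀.asIdeal] (v : HeightOneSpectrum (𝓞 ℚ))
    [P.asIdeal.LiesOver v.asIdeal] [P₀.asIdeal.LiesOver v.asIdeal]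
    (h : P₀.asIdeal.ramificationIdx (𝓞 ℚ) = 1) (σ : Gal(M/ℚ))
    (hσ : σ ∈ P.asIdeal.inertia Gal(M/ℚ)) (x : F) : σ (algebraMap F M x) = algebraMap F M x := by
  have hgF : IsGalois F M := IsGalois.tower_top_of_isGalois ℚ F M
  have e2 := Ideal.ramificationIdx_tower (R := 𝓞 ℚ) P₀.asIdeal P.asIdeal
  rw [h, one_mul, ← card_inertia v P, ← card_inertia P₀ P] at e2
  let f : P.asIdeal.inertia Gal(M/F) → P.asIdeal.inertia Gal(M/ℚ) := fun τ =>
    ⟨(τ : Gal(M/F)).restrictScalars ℚ, fun y => τ.2 y⟩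
  have hf : Function.Injective f := by
    intro τ τ' h1
    have h2 := congrArg Subtype.val h1
    apply Subtype.ext
    ext y
    exact congrArg (fun g : Gal(M/ℚ) => g y) h2
  have hs : Function.Surjective f := by
    have : Finite (P.asIdeal.inertia Gal(M/ℚ)) := inferInstance
    have : Finite (P.asIdeal.inertia Gal(M/F)) := inferInstance
    exact ((Nat.bijective_iff_injective_and_card f).2 ⟨hf, e2.symm⟩).2
  obtain ⟨τ, hτ⟩ := hs ⟨σ, hσ⟩
  have h3 := congrArg Subtype.val hτ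
  have h4 : σ (algebraMap F M x) = (τ : Gal(M/F)) (algebraMap F M x) := by
    change (⟨σ, hσ⟩ : P.asIdeal.inertia Gal(M/ℚ)).1 _ = _
    rw [← h3]
    rfl
  rw [h4]
  exact (τ : Gal(M/F)).commutes x

end

end XG

namespace X11

open XG

/-- The normal closure is unramified outside of the good primes. -/
theorem Unr.closure {F M : Type} [Field F] [NumberField F] [Field M] [NumberField M] [Algebra F M]
    [IsGalois ℚ M] (hext : ∀ σ : M ≃ₐ[ℚ] M,
      (∀ (g : M ≃ₐ[ℚ] M) (x : F), σ (g (algebraMap F M x)) = g (algebraMap F M x)) → σ = 1)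
    (hu : Unr F) : Unr M := by
  intro p hp hg P hpP
  have hv0 : P.asIdeal.under (𝓞 ℚ) ≠ ⊥ := Ideal.IsIntegral.comap_ne_bot (𝓞 ℚ) P.ne_bot
  let v : HeightOneSpectrum (𝓞 ℚ) := ⟨P.asIdeal.under (𝓞 ℚ), inferInstance, hv0⟩
  haveI hPv : P.asIdeal.LiesOver v.asIdeal := ⟨rfl⟩
  refine not_sq_of_ram v P p hp hpP ?_
  have key : ∀ (Q : HeightOneSpectrum (𝓞 M)), (p : 𝓞 M) ∈ Q.asIdeal → ∀ σ : Gal(M/ℚ),
      σ ∈ Q.asIdeal.inertia Gal(M/ℚ) → ∀ x : F, σ (algebraMap F M x) = algebraMap F M x := by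
    intro Q hpQ σ hσ x
    have hw0 : Q.asIdeal.under (𝓞 ℚ) ≠ ⊥ := Ideal.IsIntegral.comap_ne_bot (𝓞 ℚ) Q.ne_bot
    have hQ0 : Q.asIdeal.under (𝓞 F) ≠ ⊥ := Ideal.IsIntegral.comap_ne_bot (𝓞 F) Q.ne_bot
    let w : HeightOneSpectrum (𝓞 ℚ) := ⟨Q.asIdeal.under (𝓞 ℚ), inferInstance, hw0⟩
    let Q₀ : HeightOneSpectrum (𝓞 F) := ⟨Q.asIdeal.under (𝓞 F), inferInstance, hQ0⟩
    haveI h1 : Q.asIdeal.LiesOver w.asIdeal := ⟨rfl⟩
    haveI h2 : Q.asIdeal.LiesOver Q₀.asIdeal := ⟨rfl⟩
    haveI h3 : Q₀.asIdeal.LiesOver w.asIdeal := ⟨by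
      rw [h1.over]
      change _ = Ideal.under _ (Ideal.under _ _)
      rw [Ideal.under_under]⟩
    have hpQ0 : (p : 𝓞 F) ∈ Q₀.asIdeal := by
      change (p : 𝓞 F) ∈ Q.asIdeal.under (𝓞 F)
      rw [Ideal.under_def, Ideal.mem_comap, map_natCast]
      exact hpQ
    exact inertia_fixes Q Q₀ w (sg_ram_one w Q₀ p hpQ0 (hu p hp hg Q₀ hpQ0)) σ hσ x
  rw [← card_inertia v P, Nat.card_eq_one_iff_unique]
  have h1 : ∀ σ : Gal(M/ℚ), σ ∈ P.asIdeal.inertia Gal(M/ℚ) → σ = 1 := by
    intro σ hσ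
    apply hext
    intro g x
    -- the conjugate place
    let e : 𝓞 M ≃+* 𝓞 M := RingOfIntegers.mapRingEquiv (g : M ≃+* M)
    have he : ∀ y : 𝓞 M, ((e y : 𝓞 M) : M) = g (y : M) := fun y => rfl
    have hne : P.asIdeal.comap (e : 𝓞 M →+* 𝓞 M) ≠ ⊥ := by
      intro h0
      obtain ⟨y, hy, hy0⟩ := Submodule.exists_mem_ne_zero_of_ne_bot P.ne_bot
      have h2 : e.symm y ∈ P.asIdeal.comap (e : 𝓞 M →+* 𝓞 M) := by
        rw [Ideal.mem_comap]
        change e (e.symm y) ∈ P.asIdeal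
        rw [e.apply_symm_apply]
        exact hy
      rw [h0, Ideal.mem_bot] at h2
      apply hy0
      rw [← e.apply_symm_apply y, h2, map_zero]
    let Q : HeightOneSpectrum (𝓞 M) :=
      ⟨P.asIdeal.comap (e : 𝓞 M →+* 𝓞 M), P.isPrime.comap _, hne⟩
    have hQmem : ∀ y : 𝓞 M, y ∈ Q.asIdeal ↔ e y ∈ P.asIdeal := fun y => Iff.rfl
    have hpQ : (p : 𝓞 M) ∈ Q.asIdeal := by
      rw [hQmem, map_natCast]
      exact hpP
    have hτ : g⁻¹ * σ * g ∈ Q.asIdeal.inertia Gal(M/ℚ) := by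
      intro y
      change (g⁻¹ * σ * g) • y - y ∈ Q.asIdeal
      rw [hQmem, map_sub]
      have h3 : e ((g⁻¹ * σ * g) • y) = σ • (e y) := by
        apply RingOfIntegers.ext
        rw [he]
        change g ((g⁻¹ * σ * g) (y : M)) = σ (g (y : M))
        rw [AlgEquiv.mul_apply, AlgEquiv.mul_apply]
        exact g.apply_symm_apply _
      rw [h3]
      exact hσ (e y)
    have h4 := key Q hpQ _ hτ x
    have h5 := congrArg g h4
    have hgg : ∀ y, g (g⁻¹ y) = y := fun y => g.apply_symm_apply y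
    rw [AlgEquiv.mul_apply, AlgEquiv.mul_apply, hgg] at h5
    exact h5
  exact ⟨⟨fun σ τ => Subtype.ext ((h1 σ σ.2).trans (h1 τ τ.2).symm)⟩, ⟨1⟩⟩

/-- **The Galois closure.** -/
theorem exists_closure (K F : Type) [Field K] [NumberField K] [Field F] [NumberField F]
    [Algebra K F] [IsGalois ℚ K] [IsGalois K F] (a n : ℕ) (ha : Module.finrank ℚ K = 2 ^ a)
    (hn : Module.finrank K F = 2 ^ n) (hu : Unr F) :
    ∃ (M : Type) (_ : Field M) (_ : NumberField M) (_ : Algebra F M) (_ : IsGalois ℚ M) (m : ℕ),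
      Module.finrank ℚ M = 2 ^ m ∧ Unr M := by
  let L := AlgebraicClosure F
  haveI : Normal ℚ L := by
    haveI : IsAlgClosure ℚ L := ⟨inferInstance, Algebra.IsAlgebraic.trans ℚ F L⟩
    exact IsAlgClosure.normal ℚ L
  haveI : IsScalarTower ℚ F L := IsScalarTower.of_algebraMap_eq' (Subsingleton.elim _ _)
  let M := IntermediateField.normalClosure ℚ F L
  haveI : FiniteDimensional ℚ M := normalClosure.is_finiteDimensional ℚ F L
  haveI : NumberField M := ⟨⟩
  letI : Algebra F M := normalClosure.algebra ℚ F L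
  haveI : Normal ℚ M := normalClosure.normal ℚ F L
  haveI : IsGalois ℚ M := ⟨⟩
  haveI : Nonempty (F →ₐ[ℚ] L) := ⟨IsScalarTower.toAlgHom ℚ F L⟩
  haveI : IsNormalClosure ℚ F M := isNormalClosure_normalClosure ℚ F L
  have hext := fun σ : M ≃ₐ[ℚ] M => ncl_ext (F := F) (M := M) σ
  refine ⟨M, inferInstance, inferInstance, inferInstance, inferInstance, ?_⟩
  -- the degree
  letI : Algebra K M := ((algebraMap F M).comp (algebraMap K F)).toAlgebra
  haveI : IsScalarTower K F M := IsScalarTower.of_algebraMap_eq' rfl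
  haveI : IsScalarTower ℚ K M := IsScalarTower.of_algebraMap_eq' (Subsingleton.elim _ _)
  haveI : IsGalois K M := IsGalois.tower_top_of_isGalois ℚ K M
  haveI : FiniteDimensional K F := Module.Finite.of_restrictScalars_finite ℚ K F
  have hpow : ∀ τ : M ≃ₐ[K] M, ∀ x : F, (τ ^ 2 ^ n) (algebraMap F M x) = algebraMap F M x := by
    intro τ x
    have h1 : AlgEquiv.restrictNormalHom F (τ ^ 2 ^ n) = 1 := by
      rw [map_pow, ← hn, ← IsGalois.card_aut_eq_finrank, pow_card_eq_one']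
    have h2 := AlgEquiv.restrictNormal_commutes (τ ^ 2 ^ n) F x
    have h3 : (τ ^ 2 ^ n).restrictNormal F = 1 := h1
    rw [h3] at h2
    exact h2.symm
  have hall : ∀ τ : M ≃ₐ[K] M, τ ^ 2 ^ n = 1 := by
    intro τ
    have h1 : (τ ^ 2 ^ n).restrictScalars ℚ = 1 := by
      apply hext
      intro g x
      -- the conjugate automorphism
      have hK : ∀ y : K, ∃ y' : K, g (algebraMap K M y) = algebraMap K M y' := fun y =>
        ⟨g.restrictNormal K y, (g.restrictNormal_commutes K y).symm⟩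
      let τ' : M ≃ₐ[K] M := AlgEquiv.ofRingEquiv
        (f := ((g⁻¹ * τ.restrictScalars ℚ * g : M ≃ₐ[ℚ] M) : M ≃+* M)) (by
          intro y
          change (g⁻¹ * τ.restrictScalars ℚ * g) (algebraMap K M y) = algebraMap K M y
          rw [AlgEquiv.mul_apply, AlgEquiv.mul_apply]
          obtain ⟨y', hy'⟩ := hK y
          rw [hy']
          change g⁻¹ (τ (algebraMap K M y')) = _
          rw [τ.commutes, ← hy']
          exact g.symm_apply_apply _)
      have h2 : ∀ (k : ℕ) (y : M), (τ' ^ k) y = g⁻¹ ((τ ^ k) (g y)) := by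
        intro k
        induction k with
        | zero =>
          intro y
          rw [pow_zero, pow_zero]
          exact (g.symm_apply_apply y).symm
        | succ k ih =>
          intro y
          rw [pow_succ, AlgEquiv.mul_apply, ih, pow_succ, AlgEquiv.mul_apply]
          congr 2
          change g ((g⁻¹ * τ.restrictScalars ℚ * g) y) = τ (g y)
          rw [AlgEquiv.mul_apply, AlgEquiv.mul_apply]
          exact g.apply_symm_apply _
      have h3 := hpow τ' x
      rw [h2] at h3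
      have h4 := congrArg g h3
      have hgg : ∀ y, g (g⁻¹ y) = y := fun y => g.apply_symm_apply y
      rw [hgg] at h4
      exact h4
    apply AlgEquiv.ext
    intro y
    exact congrArg (fun f : M ≃ₐ[ℚ] M => f y) h1
  haveI : Fact (Nat.Prime 2) := ⟨Nat.prime_two⟩
  have hP : IsPGroup 2 (M ≃ₐ[K] M) := fun g => ⟨n, hall g⟩
  haveI : FiniteDimensional K M := Module.Finite.of_restrictScalars_finite ℚ K M
  obtain ⟨m, hm⟩ := IsPGroup.iff_card.1 hP
  rw [IsGalois.card_aut_eq_finrank] at hm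
  refine ⟨a + m, ?_, Unr.closure hext hu⟩
  rw [← Module.finrank_mul_finrank ℚ K M, ha, hm, pow_add]

/-- **The algebraic half for `X₀(11)`**: `K / ℚ` Galois of `2`-power degree, `F / K` Galois of
`2`-power degree, `F` unramified outside of the good primes. -/
theorem algebraic_half (K F : Type) [Field K] [NumberField K] [Field F] [NumberField F]
    [Algebra K F] [IsGalois ℚ K] [IsGalois K F] (a n : ℕ) (ha : Module.finrank ℚ K = 2 ^ a)
    (hn : Module.finrank K F = 2 ^ n) (hu : Unr F) :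
    Finite (E F).toAffine.Point ∧ Odd (Nat.card (E F).toAffine.Point) ∧
      ∀ (k : ℕ) (x : SBSD.Sha (E F)), 2 ^ k • x = 0 → x = 0 := by
  obtain ⟨M, _, _, _, _, m, hm, huM⟩ := exists_closure K F a n ha hn hu
  exact ⟨finite_points_sub M m hm huM F, odd_points_sub M m hm huM F, sha_sub M m hm huM F⟩

end X11
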