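import Pool.Agent.MP_9ab903_nt.XG.CL
import Pool.Agent.NC11.Final

set_option autoImplicit false

open NumberField IsDedekindDomain
open scoped Classical

namespace NC11

/-! ## [RS11] assembly for `X₀(11)` over fields unramified outside of the good primes -/

/-- `K / ℚ` Galois of `2`-power degree, `F / K` Galois of `2`-power degree, `F` unramified outside of
the good primes of `X11.GoodPrime` (no root of the `2`-division cubic modulo `p`; contains the good
primes of `NC11` and `3`): the analytic part of the statement implies the `2`-part of the strong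
conjecture. -/
theorem assemble_unr (K F : Type) [Field K] [NumberField K] [Field F] [NumberField F]
    [Algebra K F] [IsGalois ℚ K] [IsGalois K F] (a n : ℕ) (ha : Module.finrank ℚ K = 2 ^ a)
    (hn : Module.finrank K F = 2 ^ n) (hu : X11.Unr F) {L : ℂ → ℂ}
    (hL1 : Differentiable ℂ L) (hL2 : ∀ s : ℂ, 3 / 2 < s.re →
      LSeriesSummable (fun k => ((E F).LFunction k : ℂ)) s ∧ L s = (E F).LSeries s)
    (hL3 : L 1 ≠ 0)
    (hq : ∃ q : ℚ, q ≠ 0 ∧ padicValRat 2 q = 0 ∧ L 1 * ((√|(discr F : ℝ)| : ℝ) : ℂ) =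
      q * ((∏ v : InfinitePlace F, SBSD.archPeriod (E F) v : ℝ) : ℂ)) :
    SBSD2.TwoPartRankZero (E F) := by
  obtain ⟨hfin, hodd, hsha⟩ := X11.algebraic_half K F a n ha hn hu
  have h9 : ∀ v : HeightOneSpectrum (𝓞 F), (11 : 𝓞 F) ∈ v.asIdeal →
      (11 : 𝓞 F) ∉ v.asIdeal ^ 2 := by
    intro v hv
    have := hu 11 (by norm_num) (fun h => X11.good_prime_ne_eleven h rfl) v (by exact_mod_cast hv)
    exact_mod_cast this
  have hell : (E F).IsElliptic := by
    rw [WeierstrassCurve.isElliptic_iff]
    have : (E F).Δ = -11 ^ 5 := X11.E_Δ F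
    rw [this]
    norm_num
  exact assemble (E F) hell hfin hodd hL1 hL2 hL3 (fun x k => hsha k x) (X11.finprod_tam_odd F h9)
    (X11.finprod_neron F h9) hq

/-- `3` is a good prime of `X11.GoodPrime`. -/
theorem good_three : X11.GoodPrime 3 := ⟨by norm_num, by decide⟩

/-- `F` is unramified outside of the good primes if it is unramified outside of `3` and good primes
of `NC11`. -/
theorem unr_of (F : Type) [Field F] [NumberField F]
    (h : ∀ p : ℕ, p.Prime → p ≠ 3 → ¬ GoodPrime p → ∀ P : HeightOneSpectrum (𝓞 F),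
      (p : 𝓞 F) ∈ P.asIdeal → (p : 𝓞 F) ∉ P.asIdeal ^ 2) : X11.Unr F := by
  intro p hp hg P
  refine h p hp ?_ (fun hg' => hg (good_X11 hg')) P
  rintro rfl
  exact hg good_three

end NC11
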