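import Mathlib

set_option autoImplicit false

open NumberField IsDedekindDomain
open scoped Classical

namespace XG

/-! ## [RS11-UB] unramified base change (inertia groups) -/

theorem card_inertia {A B : Type} [Field A] [NumberField A] [Field B] [NumberField B] [Algebra A B]
    [IsGalois A B] (v : HeightOneSpectrum (𝓞 A)) (w : HeightOneSpectrum (𝓞 B))
    [w.asIdeal.LiesOver v.asIdeal] :
    Nat.card (w.asIdeal.inertia Gal(B/A)) = w.asIdeal.ramificationIdx (𝓞 A) := by
  have := v.isPrime
  have := w.isPrime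
  have hfin : Finite (𝓞 A ⧸ v.asIdeal) := Ideal.finiteQuotientOfFreeOfNeBot _ v.ne_bot
  have hfin2 : Finite v.asIdeal.ResidueField :=
    Finite.of_surjective _ (v.asIdeal.bijective_algebraMap_quotient_residueField).2
  rw [Ideal.card_inertia_eq_ramificationIdxIn v.asIdeal w.asIdeal,
    Ideal.ramificationIdxIn_eq_ramificationIdx v.asIdeal w.asIdeal Gal(B/A)]

/-- Unramified base change: let `F' / K'` and `F / K` be Galois, `K ⊆ K'`, `F ⊆ F'`, such that an
automorphism of `F' / K'` which is trivial on `F` is trivial. If `F / K` is unramified at the place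
below `P'`, then `F' / K'` is unramified at `P'`. -/
theorem unram_base {K F K' F' : Type} [Field K] [NumberField K] [Field F] [NumberField F]
    [Field K'] [NumberField K'] [Field F'] [NumberField F'] [Algebra K F] [Algebra K K']
    [Algebra K' F'] [Algebra F F'] [Algebra K F'] [IsScalarTower K K' F'] [IsScalarTower K F F']
    [IsGalois K F] [IsGalois K' F']
    (hinj : ∀ σ : Gal(F'/K'), (∀ x : F, σ (algebraMap F F' x) = algebraMap F F' x) → σ = 1)
    (v : HeightOneSpectrum (𝓞 K)) (P : HeightOneSpectrum (𝓞 F)) (v' : HeightOneSpectrum (𝓞 K'))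
    (P' : HeightOneSpectrum (𝓞 F')) [P.asIdeal.LiesOver v.asIdeal]
    [P'.asIdeal.LiesOver v'.asIdeal] [hPP : P'.asIdeal.LiesOver P.asIdeal]
    (h : P.asIdeal.ramificationIdx (𝓞 K) = 1) : P'.asIdeal.ramificationIdx (𝓞 K') = 1 := by
  rw [← card_inertia v P, Nat.card_eq_one_iff_unique] at h
  obtain ⟨hsub, -⟩ := h
  rw [← card_inertia v' P', Nat.card_eq_one_iff_unique]
  refine ⟨⟨fun σ τ => ?_⟩, inferInstance⟩
  have key : ∀ σ : P'.asIdeal.inertia Gal(F'/K'), (σ : Gal(F'/K')) = 1 := by
    rintro ⟨σ, hσ⟩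
    apply hinj
    let σK : Gal(F'/K) := σ.restrictScalars K
    let τ : Gal(F/K) := σK.restrictNormal F
    have hτ : ∀ x : F, algebraMap F F' (τ x) = σ (algebraMap F F' x) := fun x =>
      AlgEquiv.restrictNormal_commutes σK F x
    have hmem : τ ∈ P.asIdeal.inertia Gal(F/K) := by
      intro x
      have h1 : σ • (algebraMap (𝓞 F) (𝓞 F') x) - algebraMap (𝓞 F) (𝓞 F') x ∈ P'.asIdeal :=
        hσ (algebraMap (𝓞 F) (𝓞 F') x)
      have h2 : algebraMap (𝓞 F) (𝓞 F') (τ • x - x) =
          σ • (algebraMap (𝓞 F) (𝓞 F') x) - algebraMap (𝓞 F) (𝓞 F') x := by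
        rw [map_sub]
        congr 1
        apply RingOfIntegers.ext
        exact hτ x
      rw [← h2] at h1
      change τ • x - x ∈ P.asIdeal
      rw [hPP.over]
      exact h1
    have h3 : (⟨τ, hmem⟩ : P.asIdeal.inertia Gal(F/K)) = 1 := Subsingleton.elim _ _
    have h4 : τ = 1 := congrArg Subtype.val h3
    intro x
    rw [← hτ x, h4]
    rfl
  exact Subtype.ext ((key σ).trans (key τ).symm)

end XG
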