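import Pool.Agent.MP_9ab903_nt.NC.FIN
import Pool.Agent.MP_9ab903_nt.XG.UB

set_option autoImplicit false
set_option linter.unusedSectionVars false
set_option linter.style.haveILetI false

open Polynomial NumberField IsDedekindDomain
open scoped Classical

namespace X11

/-! ## [RS11-SG] the algebraic half for `X₀(11)` over `M / ℚ` Galois of degree `2 ^ n`, unramified
outside of the good primes, and over the subfields of `M` (file XG/SG.lean, helper71) -/

/-- `F` is unramified outside of the good primes. -/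
def Unr (F : Type) [Field F] [NumberField F] : Prop :=
  ∀ p : ℕ, p.Prime → ¬ GoodPrime p → ∀ P : HeightOneSpectrum (𝓞 F), (p : 𝓞 F) ∈ P.asIdeal →
    (p : 𝓞 F) ∉ P.asIdeal ^ 2

theorem sg_val_one {F : Type} [Field F] [NumberField F] (v : HeightOneSpectrum (𝓞 F)) (p : ℕ)
    (h2 : (p : 𝓞 F) ∈ v.asIdeal) (h4 : (p : 𝓞 F) ∉ v.asIdeal ^ 2) :
    v.valuation F (p : F) = WithZero.exp (-1) := by
  have hmap2 : algebraMap (𝓞 F) F (p : 𝓞 F) = (p : F) := map_natCast _ p
  have hw2lt : v.valuation F (p : F) < 1 := by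
    rw [← hmap2, v.valuation_lt_one_iff_mem]
    exact h2
  have h5 : ¬ v.valuation F (p : F) ≤ WithZero.exp (-((2 : ℕ) : ℤ)) := by
    rw [← hmap2, v.valuation_of_algebraMap, v.intValuation_le_pow_iff_mem]
    exact h4
  have h0 : v.valuation F (p : F) ≠ 0 := by
    intro h0
    rw [h0] at h5
    exact h5 zero_le
  have h6 : v.valuation F (p : F) = WithZero.exp (WithZero.log (v.valuation F (p : F))) :=
    (WithZero.exp_log h0).symm
  rw [h6] at hw2lt h5 ⊢
  rw [← WithZero.exp_zero, WithZero.exp_lt_exp] at hw2lt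
  rw [WithZero.exp_le_exp] at h5
  congr 1
  push Not at h5
  push_cast at h5
  omega

/-- `p ∉ P²` means that the ramification index is `1`. -/
theorem sg_ram_one {F : Type} [Field F] [NumberField F] (v : HeightOneSpectrum (𝓞 ℚ))
    (P : HeightOneSpectrum (𝓞 F)) [P.asIdeal.LiesOver v.asIdeal] (p : ℕ)
    (h2 : (p : 𝓞 F) ∈ P.asIdeal) (h4 : (p : 𝓞 F) ∉ P.asIdeal ^ 2) :
    P.asIdeal.ramificationIdx (𝓞 ℚ) = 1 := by
  have h1 := HeightOneSpectrum.valuation_liesOver (K := ℚ) F v P (p : ℚ)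
  rw [Ideal.ramificationIdx'_eq_ramificationIdx v.asIdeal P.asIdeal v.ne_bot,
    map_natCast (algebraMap ℚ F) p, sg_val_one P p h2 h4] at h1
  set e := P.asIdeal.ramificationIdx (𝓞 ℚ) with he
  have h0 : v.valuation ℚ (p : ℚ) ≠ 0 := by
    intro h0
    rw [h0] at h1
    rcases Nat.eq_zero_or_pos e with h | h
    · rw [h, pow_zero] at h1
      have : (WithZero.exp (0 : ℤ)) = WithZero.exp (-1 : ℤ) := by rw [← h1, WithZero.exp_zero]
      rw [WithZero.exp_inj] at this
      omega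
    · rw [zero_pow h.ne'] at h1
      exact WithZero.exp_ne_zero h1.symm
  rw [← WithZero.exp_log h0, ← WithZero.exp_nsmul, WithZero.exp_inj, nsmul_eq_mul] at h1
  have h3 : (e : ℤ) ∣ 1 := ⟨-WithZero.log (v.valuation ℚ (p : ℚ)), by linarith⟩
  exact_mod_cast Int.eq_one_of_dvd_one (by positivity) h3

section

variable {M : Type} [Field M] [NumberField M] [Fact (Irreducible (cubPoly M))]

theorem sg_finrank_R (K : Type) [Field K] [Fact (Irreducible (cubPoly K))] :
    Module.finrank K (R K) = 3 := by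
  rw [(AdjoinRoot.powerBasis' (cubPoly_monic K)).finrank, AdjoinRoot.powerBasis'_dim,
    cubPoly_natDegree]

theorem sg_scalarTower :
    letI : Algebra (R ℚ) (R M) := (mapR (algebraMap ℚ M)).toAlgebra
    IsScalarTower ℚ (R ℚ) (R M) := by
  letI : Algebra (R ℚ) (R M) := (mapR (algebraMap ℚ M)).toAlgebra
  exact IsScalarTower.of_algebraMap_eq' (Subsingleton.elim _ _)

theorem sg_finrank_RM (n : ℕ) (hn : Module.finrank ℚ M = 2 ^ n) :
    letI : Algebra (R ℚ) (R M) := (mapR (algebraMap ℚ M)).toAlgebra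
    Module.finrank (R ℚ) (R M) = 2 ^ n := by
  letI : Algebra (R ℚ) (R M) := (mapR (algebraMap ℚ M)).toAlgebra
  haveI : IsScalarTower ℚ (R ℚ) (R M) := sg_scalarTower
  haveI : FiniteDimensional ℚ (R M) := Module.Finite.trans M (R M)
  haveI : Module.Finite (R ℚ) (R M) := Module.Finite.of_restrictScalars_finite ℚ (R ℚ) (R M)
  have h1 := Module.finrank_mul_finrank ℚ (R ℚ) (R M)
  have h2 := Module.finrank_mul_finrank ℚ M (R M)
  rw [sg_finrank_R] at h1
  rw [sg_finrank_R, hn, ← h1] at h2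
  change Module.finrank (R ℚ) (R M) = 2 ^ n
  omega

/-- The automorphism of `R M` over `R ℚ`. -/
noncomputable def sg_aut (σ : M ≃ₐ[ℚ] M) :
    letI : Algebra (R ℚ) (R M) := (mapR (algebraMap ℚ M)).toAlgebra
    R M →ₐ[R ℚ] R M :=
  letI : Algebra (R ℚ) (R M) := (mapR (algebraMap ℚ M)).toAlgebra
  { mapR (σ : M →+* M) with
    commutes' := fun z => by
      change mapR (σ : M →+* M) (mapR (algebraMap ℚ M) z) = mapR (algebraMap ℚ M) z
      rw [sel_mapR_comp]
      congr 1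
      congr 1
      ext x
      exact σ.commutes x }

theorem sg_isGalois_RM [IsGalois ℚ M] (n : ℕ) (hn : Module.finrank ℚ M = 2 ^ n) :
    letI : Algebra (R ℚ) (R M) := (mapR (algebraMap ℚ M)).toAlgebra
    IsGalois (R ℚ) (R M) := by
  letI : Algebra (R ℚ) (R M) := (mapR (algebraMap ℚ M)).toAlgebra
  haveI : IsScalarTower ℚ (R ℚ) (R M) := sg_scalarTower
  haveI : FiniteDimensional ℚ (R M) := Module.Finite.trans M (R M)
  haveI : Module.Finite (R ℚ) (R M) := Module.Finite.of_restrictScalars_finite ℚ (R ℚ) (R M)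
  apply IsGalois.of_card_aut_eq_finrank
  have h1 : Module.finrank (R ℚ) (R M) = 2 ^ n := sg_finrank_RM n hn
  have h2 : Nat.card (R M →ₐ[R ℚ] R M) ≤ Module.finrank (R ℚ) (R M) :=
    card_algHom_le_finrank (R ℚ) (R M) (R M)
  have h3 : Nat.card Gal(M/ℚ) = 2 ^ n := by rw [← hn, IsGalois.card_aut_eq_finrank]
  have h4 : Nat.card (R M ≃ₐ[R ℚ] R M) = Nat.card (R M →ₐ[R ℚ] R M) :=
    Nat.card_congr (algEquivEquivAlgHom (R ℚ) (R M)).toEquiv
  have hinj : Function.Injective (sg_aut (M := M)) := by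
    intro σ τ h
    ext x
    have h5 := congrArg (fun φ : R M →ₐ[R ℚ] R M => φ (algebraMap M (R M) x)) h
    change mapR (σ : M →+* M) (algebraMap M (R M) x) = mapR (τ : M →+* M) (algebraMap M (R M) x)
      at h5
    rw [mapR_algebraMap, mapR_algebraMap] at h5
    exact (algebraMap M (R M)).injective h5
  have h6 : Nat.card Gal(M/ℚ) ≤ Nat.card (R M →ₐ[R ℚ] R M) := by
    haveI : Finite (R M →ₐ[R ℚ] R M) := inferInstance
    exact Nat.card_le_card_of_injective _ hinj
  apply le_antisymm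
  · rw [h4]; exact h2
  · rw [h4, h1, ← h3]; exact h6

/-- If `M / ℚ` is unramified at the places above the prime below `v`, there is a place `P` of `R M`
with `w_P(z) = w_v(z)` for `z` in `R ℚ`. -/
theorem unram_R_gal [IsGalois ℚ M] (n : ℕ) (hn : Module.finrank ℚ M = 2 ^ n)
    (v : HeightOneSpectrum (𝓞 (R ℚ)))
    (hu : ∀ p : ℕ, (p : 𝓞 (R ℚ)) ∈ v.asIdeal → p.Prime → ∀ P : HeightOneSpectrum (𝓞 M),
      (p : 𝓞 M) ∈ P.asIdeal → (p : 𝓞 M) ∉ P.asIdeal ^ 2) :
    ∃ P : HeightOneSpectrum (𝓞 (R M)),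
      (∀ N : ℕ, (N : 𝓞 (R M)) ∈ P.asIdeal → (N : 𝓞 (R ℚ)) ∈ v.asIdeal) ∧
      ∀ z : R ℚ, P.valuation (R M) (mapR (algebraMap ℚ M) z) = v.valuation (R ℚ) z := by
  letI : Algebra (R ℚ) (R M) := (mapR (algebraMap ℚ M)).toAlgebra
  haveI : IsScalarTower ℚ (R ℚ) (R M) := sg_scalarTower
  haveI : IsGalois (R ℚ) (R M) := sg_isGalois_RM n hn
  have := v.isMaximal
  obtain ⟨Q, hQm, hQ⟩ := Ideal.exists_maximal_ideal_liesOver_of_isIntegral
    (S := 𝓞 (R M)) v.asIdeal
  have hQ0 : Q ≠ ⊥ := Ideal.ne_bot_of_liesOver_of_ne_bot v.ne_bot Q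
  let P : HeightOneSpectrum (𝓞 (R M)) := ⟨Q, hQm.isPrime, hQ0⟩
  haveI hP : P.asIdeal.LiesOver v.asIdeal := hQ
  -- the places below
  have hv0ne : v.asIdeal.under (𝓞 ℚ) ≠ ⊥ := Ideal.IsIntegral.comap_ne_bot (𝓞 ℚ) v.ne_bot
  have hP0ne : P.asIdeal.under (𝓞 M) ≠ ⊥ := Ideal.IsIntegral.comap_ne_bot (𝓞 M) P.ne_bot
  let v₀ : HeightOneSpectrum (𝓞 ℚ) := ⟨v.asIdeal.under (𝓞 ℚ), inferInstance, hv0ne⟩
  let P₀ : HeightOneSpectrum (𝓞 M) := ⟨P.asIdeal.under (𝓞 M), inferInstance, hP0ne⟩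
  haveI hvv : v.asIdeal.LiesOver v₀.asIdeal := ⟨rfl⟩
  haveI hPP : P.asIdeal.LiesOver P₀.asIdeal := ⟨rfl⟩
  haveI hPv : P.asIdeal.LiesOver v₀.asIdeal := Ideal.LiesOver.trans P.asIdeal v.asIdeal v₀.asIdeal
  haveI hP0v : P₀.asIdeal.LiesOver v₀.asIdeal := ⟨by
    rw [hPv.over]
    change _ = Ideal.under _ (Ideal.under _ _)
    rw [Ideal.under_under]⟩
  -- the rational prime
  obtain ⟨p, hp, hpv⟩ : ∃ p : ℕ, p.Prime ∧ (p : 𝓞 (R ℚ)) ∈ v.asIdeal := by
    have h1 : v.asIdeal.under ℤ ≠ ⊥ := Ideal.IsIntegral.comap_ne_bot ℤ v.ne_bot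
    have h2 : (v.asIdeal.under ℤ).IsPrime := inferInstance
    obtain ⟨q, hq⟩ := (IsPrincipalIdealRing.principal (v.asIdeal.under ℤ)).principal
    have hq0 : q ≠ 0 := by
      rintro rfl
      apply h1
      rw [hq]
      simp
    have hq' : v.asIdeal.under ℤ = Ideal.span {q} := hq
    have hqp : Prime q := by
      rw [hq'] at h2
      exact (Ideal.span_singleton_prime hq0).1 h2
    refine ⟨q.natAbs, Int.prime_iff_natAbs_prime.1 hqp, ?_⟩
    have h3 : (q.natAbs : ℤ) ∈ v.asIdeal.under ℤ := by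
      rw [hq', Ideal.mem_span_singleton]
      exact Int.dvd_natAbs.2 dvd_rfl
    rw [Ideal.under_def, Ideal.mem_comap] at h3
    simpa using h3
  have hpP0 : (p : 𝓞 M) ∈ P₀.asIdeal := by
    change (p : 𝓞 M) ∈ P.asIdeal.under (𝓞 M)
    rw [Ideal.under_def, Ideal.mem_comap, map_natCast]
    have h1 : (p : 𝓞 (R ℚ)) ∈ P.asIdeal.under (𝓞 (R ℚ)) := by rw [← hP.over]; exact hpv
    rw [Ideal.under_def, Ideal.mem_comap, map_natCast] at h1
    exact h1
  have e3 : P₀.asIdeal.ramificationIdx (𝓞 ℚ) = 1 :=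
    sg_ram_one v₀ P₀ p hpP0 (hu p hpv hp P₀ hpP0)
  have h1 : P.asIdeal.ramificationIdx (𝓞 (R ℚ)) = 1 := by
    refine XG.unram_base (K := ℚ) (F := M) (K' := R ℚ) (F' := R M) (fun σ hσ => ?_) v₀ P₀ v P e3
    have h2 : (σ : R M →+* R M) = RingHom.id (R M) := by
      apply AdjoinRoot.ringHom_ext
      · ext x
        exact hσ x
      · change σ (pr M) = pr M
        have h3 := σ.commutes (pr ℚ)
        change σ (mapR (algebraMap ℚ M) (pr ℚ)) = mapR (algebraMap ℚ M) (pr ℚ) at h3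
        rwa [mapR_pr] at h3
    ext x
    exact congrArg (fun f : R M →+* R M => f x) h2
  refine ⟨P, fun N hN => ?_, fun z => ?_⟩
  · rw [hP.over, Ideal.under_def, Ideal.mem_comap, map_natCast]
    exact hN
  · have h2 := HeightOneSpectrum.valuation_liesOver (K := R ℚ) (R M) v P z
    rw [Ideal.ramificationIdx'_eq_ramificationIdx v.asIdeal P.asIdeal v.ne_bot, h1, pow_one] at h2
    exact h2.symm

end

section
variable (M : Type) [Field M] [NumberField M] [IsGalois ℚ M] (n : ℕ)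
  (hn : Module.finrank ℚ M = 2 ^ n) (hu : Unr M)

include hu in
omit [IsGalois ℚ M] in
theorem sg_exists_two :
    ∃ v : HeightOneSpectrum (𝓞 M), (2 : 𝓞 M) ∈ v.asIdeal ∧ (2 : 𝓞 M) ∉ v.asIdeal ^ 2 := by
  obtain ⟨Q, hQm, hQ⟩ := Ideal.exists_le_maximal (Ideal.span {(2 : 𝓞 M)}) (by
    rw [Ne, Ideal.span_singleton_eq_top]
    intro h
    have h1 := h.map (Algebra.norm ℤ)
    have h2 : (2 : 𝓞 M) = algebraMap ℤ (𝓞 M) 2 := by simp
    rw [h2, Algebra.norm_algebraMap, isUnit_pow_iff (Module.finrank_pos.ne')] at h1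
    rw [Int.isUnit_iff] at h1
    omega)
  have h2 : (2 : 𝓞 M) ∈ Q := hQ (Ideal.mem_span_singleton_self _)
  have hQ0 : Q ≠ ⊥ := by
    rintro rfl
    rw [Ideal.mem_bot] at h2
    exact two_ne_zero h2
  let w : HeightOneSpectrum (𝓞 M) := ⟨Q, hQm.isPrime, hQ0⟩
  refine ⟨w, h2, ?_⟩
  have := hu 2 Nat.prime_two (fun h => good_prime_odd h rfl) w (by exact_mod_cast h2)
  exact_mod_cast this

include hn hu in
theorem selmer_trivial_gal (z : R M) (hz : z ≠ 0) (hN : ∃ y : M, Algebra.norm M z = y ^ 2)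
    (hloc : ∀ v : HeightOneSpectrum (𝓞 M), LocCond z (v.adicCompletion M)) :
    ∃ t : R M, z = t ^ 2 := by
  have : Fact (Irreducible (cubPoly M)) := ⟨irreducible_of_two_pow n hn⟩
  by_contra hsq
  have hgood : Good z := ⟨hz, hN, even_of_locCond M z hloc,
    fun v h2 h4 => inU2_of_locCond M z v h2 h4 (hloc v)⟩
  letI := selAct M
  let A : Subgroup (R M)ˣ :=
    { carrier := {u | Good (u : R M)}
      mul_mem' := fun {a b} ha hb => by
        change Good ((a * b : (R M)ˣ) : R M)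
        rw [Units.val_mul]
        exact Good.mul ha hb
      one_mem' := by
        change Good ((1 : (R M)ˣ) : R M)
        have := Good.sq (1 : R M) one_ne_zero
        rwa [one_pow] at this
      inv_mem' := fun {a} ha => by
        change Good ((a⁻¹ : (R M)ˣ) : R M)
        rw [Units.val_inv_eq_inv_val]
        exact Good.inv ha }
  obtain ⟨z1, hz1, hz1', hfix⟩ := CM27.exists_fixed_mod (U := (R M)ˣ) (G := M ≃ₐ[ℚ] M) n
    (by rw [IsGalois.card_aut_eq_finrank, hn]) A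
    (fun σ u hu => Good.mapR (hu : Good (u : R M)) (σ : M ≃+* M)) (Units.mk0 z hz) hgood
    (by
      rintro ⟨u, hu⟩
      exact hsq ⟨u, by
        have := congrArg (Units.val) hu
        rw [Units.val_pow_eq_pow_val] at this
        exact this⟩)
  have hg1 : Good (z1 : R M) := hz1
  obtain ⟨y, hy⟩ := hg1.norm
  obtain ⟨t, ht, z0, hz0⟩ := descend_class (z1 : R M) hg1.ne y hy (fun σ => by
    obtain ⟨u, hu⟩ := hfix σ
    exact ⟨u, by
      have := congrArg (Units.val) hu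
      rw [Units.val_mul, Units.val_pow_eq_pow_val] at this
      exact this⟩)
  have hmapinj := sel_mapR_injective (algebraMap ℚ M)
  have hz00 : z0 ≠ 0 := by
    rintro rfl
    rw [map_zero] at hz0
    exact mul_ne_zero hg1.ne (pow_ne_zero 2 ht) hz0.symm
  -- replace `z0` by `z0 * N(z0)`
  set ν : ℚ := nrm z0 with hν
  have hν0 : ν ≠ 0 := nrm_ne_zero hz00
  rw [nrm_eq] at hy
  have hνF : algebraMap ℚ M ν = (y * nrm t) ^ 2 := by
    rw [hν, ← nrm_mapR, hz0, map_mul, map_pow, hy]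
    ring
  have hyt : y * nrm t ≠ 0 := by
    intro h
    rw [h, zero_pow two_ne_zero] at hνF
    exact hν0 ((algebraMap ℚ M).injective (by rw [hνF, map_zero]))
  set z0' : R ℚ := z0 * trip ν 0 0 with hz0'
  set t' : R M := t * trip (y * nrm t) 0 0 with ht'
  have ht'0 : t' ≠ 0 := mul_ne_zero ht (trip_ne_zero hyt)
  have hmap : mapR (algebraMap ℚ M) z0' = z1 * t' ^ 2 := by
    have e : trip ((y * nrm t) ^ 2) 0 0 = trip (y * nrm t) 0 0 ^ 2 := by
      rw [pow_two, pow_two, trip_mul_self]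
    rw [hz0', map_mul, mapR_trip, map_zero, hz0, hνF, ht', e]
    ring
  have hz0'0 : z0' ≠ 0 := mul_ne_zero hz00 (trip_ne_zero hν0)
  have hN' : Algebra.norm ℚ z0' = (ν ^ 2) ^ 2 := by
    rw [nrm_rat, hz0', map_mul, nrm_trip, ← hν]
    ring
  -- all valuations are even
  have hvpF : mapR (algebraMap ℚ M) (vp ℚ) = vp M := by
    have h3 : algebraMap ℚ M 3 = 3 := map_ofNat _ 3
    have h2 : algebraMap ℚ M 2 = 2 := map_ofNat _ 2
    rw [vp, mapR_trip, h3, h2, map_one]
    rfl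
  have heven : ∀ v : HeightOneSpectrum (𝓞 (R ℚ)), v.valuation (R ℚ) (vp ℚ) = 1 →
      IsSquare (v.valuation (R ℚ) z0') := by
    intro v hvv
    by_cases hv : ∃ p : ℕ, (p = 2 ∨ GoodPrime p) ∧ (p : 𝓞 (R ℚ)) ∈ v.asIdeal
    · obtain ⟨p, hp, hpv⟩ := hv
      exact even_ram z0' hz0'0 (ν ^ 2) hN' p hp v hpv
    · obtain ⟨P, hPn, hPv⟩ := unram_R_gal n hn v (fun p hpv hp =>
        hu p hp (fun hg => hv ⟨p, Or.inr hg, hpv⟩))
      have hP2 : (2 : 𝓞 (R M)) ∉ P.asIdeal := by
        intro h2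
        exact hv ⟨2, Or.inl rfl, hPn 2 (by exact_mod_cast h2)⟩
      have hPvp : P.valuation (R M) (vp M) = 1 := by
        rw [← hvpF, hPv, hvv]
      rw [← hPv, hmap, map_mul, map_pow]
      exact (hg1.even P hP2 hPvp).mul (IsSquare.sq _)
  obtain ⟨j, s, hj, hs, hzs⟩ := cub_even' z0' hz0'0 heven (ν ^ 2) hN'
  have hz1s : (z1 : R M) = (-1 - pr M) ^ j * (mapR (algebraMap ℚ M) s * t'⁻¹) ^ 2 := by
    have h1 : mapR (algebraMap ℚ M) z0' = (-1 - pr M) ^ j * mapR (algebraMap ℚ M) s ^ 2 := by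
      rw [hzs, map_mul, map_pow, map_pow, map_sub, map_neg, map_one, mapR_pr]
    rw [hmap] at h1
    rw [mul_pow, ← mul_assoc, ← h1, mul_assoc, ← mul_pow, mul_inv_cancel₀ ht'0, one_pow, mul_one]
  have hs' : mapR (algebraMap ℚ M) s * t'⁻¹ ≠ 0 := mul_ne_zero (by
    intro h
    exact hs (hmapinj (by rw [h, map_zero]))) (inv_ne_zero ht'0)
  interval_cases j
  · apply hz1'
    refine ⟨Units.mk0 _ hs', ?_⟩
    ext
    rw [Units.val_pow_eq_pow_val, hz1s, pow_zero, one_mul]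
    rfl
  · obtain ⟨v, h2, h4⟩ := sg_exists_two M hu
    have h5 : InU2 (v.valuation M) (-1 - pr M) := by
      have h6 : -1 - pr M = (z1 : R M) * ((mapR (algebraMap ℚ M) s * t'⁻¹)⁻¹) ^ 2 := by
        rw [hz1s, pow_one, mul_assoc, ← mul_pow, mul_inv_cancel₀ hs', one_pow, mul_one]
      rw [h6]
      exact (Good.mul hg1 (Good.sq _ (inv_ne_zero hs'))).two v h2 h4
    have hw2 : v.valuation M 2 = WithZero.exp (-1) := by
      have := sg_val_one v 2 (by exact_mod_cast h2) (by exact_mod_cast h4)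
      exact_mod_cast this
    exact not_inU2 (v.valuation M) hw2 h5

end

/-! ### subfields -/

/-- the local conditions and field extensions -/
theorem locCond_map {F M : Type} [Field F] [Field M] (f : F →+* M) {z : R F}
    {C C' : Type} [Field C] [Algebra F C] [Field C'] [Algebra M C'] (φ : C →+* C')
    (hφ : ∀ x : F, φ (algebraMap F C x) = algebraMap M C' (f x)) (h : LocCond z C) :
    LocCond (mapR f z) C' := by
  obtain ⟨P, u, hu, hz⟩ := h
  refine ⟨ptMap φ P, mapR φ u, hu.map _, ?_⟩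
  have hcomp : (φ.comp (algebraMap F C)) = ((algebraMap M C').comp f) := by
    ext x
    exact hφ x
  have hmap : mapR (algebraMap M C') (mapR f z) = mapR φ (mapR (algebraMap F C) z) := by
    rw [sel_mapR_comp, sel_mapR_comp, hcomp]
  rw [hmap, hz, map_mul, map_pow, zOf_ptMap]

section
variable (M : Type) [Field M] [NumberField M] [IsGalois ℚ M] (n : ℕ)
  (hn : Module.finrank ℚ M = 2 ^ n) (hu : Unr M)
  (F : Type) [Field F] [NumberField F] [Algebra F M]

include hn in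
omit [IsGalois ℚ M] in
theorem sub_finrank : ∃ m : ℕ, Module.finrank ℚ F = 2 ^ m := by
  have h1 := Module.finrank_mul_finrank ℚ F M
  have h2 : Module.finrank ℚ F ∣ 2 ^ n := by rw [← hn]; exact Dvd.intro _ h1
  obtain ⟨m, -, hm⟩ := (Nat.dvd_prime_pow Nat.prime_two).1 h2
  exact ⟨m, hm⟩

include M n hn in
omit [IsGalois ℚ M] in
theorem sub_irreducible : Irreducible (cubPoly F) := by
  obtain ⟨m, hm⟩ := sub_finrank M n hn F
  exact irreducible_of_two_pow m hm

include M hu in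
omit [IsGalois ℚ M] in
theorem Unr.sub : Unr F := by
  intro p hp hg P hpP hpP2
  obtain ⟨Q, hQm, hQ⟩ : ∃ Q : Ideal (𝓞 M), Q.IsMaximal ∧ Q.LiesOver P.asIdeal := by
    have := P.isMaximal
    exact Ideal.exists_maximal_ideal_liesOver_of_isIntegral (S := 𝓞 M) P.asIdeal
  have hQ0 : Q ≠ ⊥ := Ideal.ne_bot_of_liesOver_of_ne_bot P.ne_bot Q
  let w : HeightOneSpectrum (𝓞 M) := ⟨Q, hQm.isPrime, hQ0⟩
  have h1 : ∀ x ∈ P.asIdeal, algebraMap (𝓞 F) (𝓞 M) x ∈ Q := by
    intro x hx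
    rw [hQ.over, Ideal.under_def, Ideal.mem_comap] at hx
    exact hx
  have h2 := h1 _ hpP
  rw [map_natCast] at h2
  refine hu p hp hg w h2 ?_
  have h3 : algebraMap (𝓞 F) (𝓞 M) (p : 𝓞 F) ∈ Q ^ 2 := by
    have h4 : Ideal.map (algebraMap (𝓞 F) (𝓞 M)) (P.asIdeal ^ 2) ≤ Q ^ 2 := by
      rw [Ideal.map_pow]
      exact Ideal.pow_right_mono (Ideal.map_le_iff_le_comap.2 (fun x hx => h1 x hx)) 2
    exact h4 (Ideal.mem_map_of_mem _ hpP2)
  rw [map_natCast] at h3
  exact h3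

include hn hu in
theorem selmer_trivial_sub (z : R F) (hz : z ≠ 0) (hN : ∃ y : F, Algebra.norm F z = y ^ 2)
    (hloc : ∀ v : HeightOneSpectrum (𝓞 F), LocCond z (v.adicCompletion F)) :
    ∃ t : R F, z = t ^ 2 := by
  have hirrF : Fact (Irreducible (cubPoly F)) := ⟨sub_irreducible M n hn F⟩
  have hirrM : Fact (Irreducible (cubPoly M)) := ⟨irreducible_of_two_pow n hn⟩
  have hgF : IsGalois F M := IsGalois.tower_top_of_isGalois ℚ F M
  have hinj := sel_mapR_injective (algebraMap F M)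
  obtain ⟨y, hy⟩ := hN
  have hyM : Algebra.norm M (mapR (algebraMap F M) z) = algebraMap F M y ^ 2 := by
    rw [norm_mapR, hy, map_pow]
  have hz' : mapR (algebraMap F M) z ≠ 0 := by
    intro h0
    exact hz (hinj (by rw [h0, map_zero]))
  obtain ⟨t, ht⟩ := selmer_trivial_gal M n hn hu
    (mapR (algebraMap F M) z) hz' ⟨algebraMap F M y, hyM⟩ (by
      intro W
      obtain ⟨v, -, φ, hφ⟩ := CM27.exists_below F M W
      exact locCond_map (algebraMap F M) φ hφ (hloc v))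
  -- the square root is fixed by the Galois group
  have hnt : Algebra.norm M t ^ 2 = algebraMap F M y ^ 2 := by
    rw [← hyM, ht, map_pow]
  have hNz : Algebra.norm M t ≠ 0 := by
    intro h0
    rw [h0, zero_pow two_ne_zero] at hnt
    apply hz
    have h1 : Algebra.norm F z = 0 := by
      apply (algebraMap F M).injective
      rw [hy, map_pow, ← hnt, map_zero]
    exact Algebra.norm_eq_zero_iff.mp h1
  have hfixN : ∀ σ : M ≃ₐ[F] M, σ (Algebra.norm M t) = Algebra.norm M t := by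
    intro σ
    rcases sq_eq_sq_iff_eq_or_eq_neg.1 hnt with h | h
    · rw [h, σ.commutes]
    · rw [h, map_neg, σ.commutes]
  have hfix : ∀ σ : M ≃ₐ[F] M, mapR (σ : M →+* M) t = t := by
    intro σ
    have h1 : mapR (σ : M →+* M) t ^ 2 = t ^ 2 := by
      rw [← map_pow, ← ht, sel_mapR_comp]
      congr 2
      ext x
      exact σ.commutes x
    rcases sq_eq_sq_iff_eq_or_eq_neg.1 h1 with h | h
    · exact h
    · exfalso
      have h2 : Algebra.norm M (mapR (σ : M →+* M) t) = Algebra.norm M t := by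
        rw [norm_mapR]
        exact hfixN σ
      rw [h, r3_norm_neg] at h2
      apply hNz
      have h3 : (2 : M) * Algebra.norm M t = 0 := by linear_combination -h2
      exact (mul_eq_zero.1 h3).resolve_left two_ne_zero
  obtain ⟨a, b, d, habd⟩ := trip_surj t
  rw [habd] at hfix
  have hfix' : ∀ σ : M ≃ₐ[F] M, σ a = a ∧ σ b = b ∧ σ d = d := by
    intro σ
    have h1 := hfix σ
    rw [mapR_trip] at h1
    exact trip_inj h1
  have hrat : ∀ x : M, (∀ σ : M ≃ₐ[F] M, σ x = x) → ∃ q : F, algebraMap F M q = x := by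
    intro x hx
    exact (IsGalois.mem_range_algebraMap_iff_fixed x).mpr hx
  obtain ⟨a0, ha0⟩ := hrat a fun σ => (hfix' σ).1
  obtain ⟨b0, hb0⟩ := hrat b fun σ => (hfix' σ).2.1
  obtain ⟨d0, hd0⟩ := hrat d fun σ => (hfix' σ).2.2
  refine ⟨trip a0 b0 d0, hinj ?_⟩
  rw [map_pow, mapR_trip, ha0, hb0, hd0, ← habd, ht]

include hn hu in
/-- **The group of points over a subfield of `M` is finite.** -/
theorem finite_points_sub : Finite (E F).toAffine.Point := by
  have hirrF : Fact (Irreducible (cubPoly F)) := ⟨sub_irreducible M n hn F⟩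
  obtain ⟨v, h2, h4⟩ := sg_exists_two F (Unr.sub M hu F)
  exact finite_points_of_selmer
    (fun z hz hN hloc => selmer_trivial_sub M n hn hu F z hz hN hloc) v h2 h4

include M n hn hu in
/-- **The group of points over a subfield of `M` has odd order.** -/
theorem odd_points_sub : Odd (Nat.card (E F).toAffine.Point) := by
  have hirrF : Fact (Irreducible (cubPoly F)) := ⟨sub_irreducible M n hn F⟩
  exact odd_points_of_finite (finite_points_sub M n hn hu F)

include hn hu in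
/-- **The Tate–Shafarevich group over a subfield of `M` has no element of `2`-power order.** -/
theorem sha_sub (k : ℕ) (x : SBSD.Sha (E F)) (h2 : 2 ^ k • x = 0) : x = 0 := by
  refine CM27.fin_two_pow (A := SBSD.Sha (E F)) (fun x hx => ?_) k x h2
  obtain ⟨c, rfl⟩ := QuotientAddGroup.mk_surjective x
  obtain ⟨hc1, hc2, -⟩ := c.2
  have h3 : 2 • c ∈ (SBSD.coboundaries (E F)).addSubgroupOf (SBSD.locTrivial (E F)) := by
    rw [← QuotientAddGroup.eq_zero_iff]
    exact hx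
  obtain ⟨P, hP⟩ := AddSubgroup.mem_addSubgroupOf.1 h3
  exact (QuotientAddGroup.eq_zero_iff _).2 (AddSubgroup.mem_addSubgroupOf.2
    (sha_two_of_selmer F (fun z hz hN hloc => selmer_trivial_sub M n hn hu F z hz hN hloc)
      c.1 hc1 hc2 ⟨P, fun σ => hP σ⟩))

end

end X11
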